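import Pool.Graph.R_seed8.Y882.JR.Core5
import Pool.Graph.R_seed8.W366.DC.SFX
import Pool.Graph.R_seed8.Y829.LS3
import Pool.Graph.R_seed8.Y882.PX.MainX
import Pool.Agent.H532.RM.Crt
import Pool.Agent.H532.RM.Mertens

/-!
The lower bound of the linear sieve for intervals and arbitrary residue classes.
-/

set_option autoImplicit false

namespace Pool.Agent.H532.AN

open Finset Filter Topology
open Pool.Agent.W23.DC
open Pool.Agent.Y882
open Pool.Agent.H532.RM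

open Classical in
theorem wsum0 (P : Finset ℕ) (hP : ∀ p ∈ P, p.Prime) (c : Finset ℕ → ℝ) (m U : ℕ) :
    ∑ n ∈ Ioc m (m + U), VV P c (fun p => if p ∣ n then 1 else 0) =
      U * VV P c (fun p => 1 / (p : ℝ)) + ∑ T ∈ P.powerset, c T *
        ((((Ioc m (m + U)).filter (fun n => (∏ p ∈ T, p) ∣ n)).card : ℝ) -
          (U : ℝ) / ((∏ p ∈ T, p : ℕ) : ℝ)) := by
  unfold VV
  rw [mul_sum, ← sum_add_distrib, sum_comm]
  refine sum_congr rfl fun T hT => ?_
  have hTp : ∀ p ∈ T, p.Prime := fun p hp => hP p (mem_powerset.1 hT hp)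
  have h1 : ∑ n ∈ Ioc m (m + U), c T * ∏ p ∈ T, (if p ∣ n then (1 : ℝ) else 0) =
      c T * (((Ioc m (m + U)).filter (fun n => (∏ p ∈ T, p) ∣ n)).card : ℝ) := by
    rw [← mul_sum]
    congr 1
    rw [card_filter]
    push_cast
    refine sum_congr rfl fun n _ => ?_
    have := Pool.Agent.Y882.PX.prod_ind T hTp n
    exact this
  rw [h1]
  have h2 : ∏ p ∈ T, (1 / (p : ℝ)) = 1 / ((∏ p ∈ T, p : ℕ) : ℝ) := by
    push_cast
    rw [prod_div_distrib, prod_const_one]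
  rw [h2]
  ring

open Classical in
theorem err (P : Finset ℕ) (hP : ∀ p ∈ P, p.Prime) (c : Finset ℕ → ℝ) (M D : ℝ) (hM : 0 ≤ M)
    (hD : 0 ≤ D) (hc : ∀ T, |c T| ≤ M)
    (hs : ∀ T ⊆ P, c T ≠ 0 → ((∏ p ∈ T, p : ℕ) : ℝ) ≤ D) (m U : ℕ) :
    |∑ T ∈ P.powerset, c T *
        ((((Ioc m (m + U)).filter (fun n => (∏ p ∈ T, p) ∣ n)).card : ℝ) -
          (U : ℝ) / ((∏ p ∈ T, p : ℕ) : ℝ))| ≤ M * D := by
  refine (abs_sum_le_sum_abs _ _).trans ?_
  have h1 : ∀ T ∈ P.powerset, |c T *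
        ((((Ioc m (m + U)).filter (fun n => (∏ p ∈ T, p) ∣ n)).card : ℝ) -
          (U : ℝ) / ((∏ p ∈ T, p : ℕ) : ℝ))| ≤
      if ((∏ p ∈ T, p : ℕ) : ℝ) ≤ D then M else 0 := by
    intro T hT
    have hTP := mem_powerset.1 hT
    split_ifs with h
    · rw [abs_mul]
      have h2 := Pool.Agent.Y829.cnt (∏ p ∈ T, p) m U
        (prod_pos fun p hp => (hP p (hTP hp)).pos)
      calc _ ≤ M * 1 := mul_le_mul (hc T) h2 (abs_nonneg _) hM
        _ = M := mul_one M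
    · have : c T = 0 := by
        by_contra h3
        exact h (hs T hTP h3)
      rw [this, zero_mul, abs_zero]
  refine (sum_le_sum h1).trans ?_
  rw [← sum_filter, sum_const, nsmul_eq_mul, mul_comm M D]
  refine mul_le_mul_of_nonneg_right ?_ hM
  have h2 : (P.powerset.filter (fun T => ((∏ p ∈ T, p : ℕ) : ℝ) ≤ D)).card ≤
      (Icc 1 ⌊D⌋₊).card := by
    refine card_le_card_of_injOn (fun T => ∏ p ∈ T, p) ?_ ?_
    · intro T hT
      have hT' := mem_filter.1 (Finset.mem_coe.1 hT)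
      refine Finset.mem_coe.2 (mem_Icc.2 ⟨?_, Nat.le_floor hT'.2⟩)
      exact prod_pos fun p hp => (hP p (mem_powerset.1 hT'.1 hp)).pos
    · intro T hT T' hT' h
      have a := mem_filter.1 (Finset.mem_coe.1 hT)
      have a' := mem_filter.1 (Finset.mem_coe.1 hT')
      exact Pool.Agent.Y882.prod_inj P hP (mem_powerset.1 a.1) (mem_powerset.1 a'.1) h
  rw [Nat.card_Icc, Nat.add_sub_cancel] at h2
  calc ((P.powerset.filter (fun T => ((∏ p ∈ T, p : ℕ) : ℝ) ≤ D)).card : ℝ) ≤ (⌊D⌋₊ : ℝ) := by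
        exact_mod_cast h2
    _ ≤ D := Nat.floor_le hD

open Classical in
/-- The lower bound of the linear sieve for intervals. -/
theorem ls_low (ζ : ℝ) (h0 : 0 < ζ) (h1 : ζ < 1 / 2) : ∃ c : ℝ, 0 < c ∧ ∀ᶠ U : ℕ in atTop,
    ∀ Z : ℕ, (Z : ℝ) < (U : ℝ) ^ ζ → ∀ (b : ℕ → ℕ) (m : ℕ),
      c * U / Real.log U ≤ T1 b Z m U := by
  obtain ⟨A0, F, f, hSF⟩ := Pool.Agent.W366.DC.SFX
  set ζ' : ℝ := max ζ (1 / 3) with hζ'
  have hz1 : ζ' < 1 / 2 := max_lt h1 (by norm_num)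
  have hz2 : 1 / 3 ≤ ζ' := le_max_right _ _
  have hz3 : ζ ≤ ζ' := le_max_left _ _
  have hz0 : 0 < ζ' := by linarith
  set τ : ℝ := (1 + 2 * ζ') / 2 with hτ
  set τ' : ℝ := (1 + τ) / 2 with hτ'
  have ht1 : τ < 1 := by rw [hτ]; linarith
  have ht2 : τ < τ' := by rw [hτ']; linarith
  have ht3 : τ' < 1 := by rw [hτ']; linarith
  have ht4 : ζ' ≤ τ := by rw [hτ]; linarith
  have hs1 : 2 < τ / ζ' := by rw [lt_div_iff₀ hz0, hτ]; linarith
  have hs2 : τ / ζ' ≤ 4 := by rw [div_le_iff₀ hz0, hτ]; linarith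
  have hf : 0 < f (τ / ζ') := by
    rw [hSF.f4 _ hs1.le hs2]
    have := hSF.pos
    have h2 : 0 < Real.log (τ / ζ' - 1) := Real.log_pos (by linarith)
    positivity
  set g : ℝ := f (τ / ζ') with hg
  obtain ⟨ε₁, η, e1, e2, e3, Y0, H⟩ :=
    Pool.Agent.Y882.JR.core5 1 A0 F f hSF τ ζ' τ' (g / 2) hz0 ht4 ht1.le ht2 (by positivity)
  obtain ⟨N0, hmer⟩ := Pool.Agent.Y829.mer ε₁ η e1 e3
  obtain ⟨cV, CV, hcV, hCV, hV⟩ := V_two_sided
  refine ⟨g * cV / 4, by positivity, ?_⟩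
  have ev1 : ∀ᶠ U : ℕ in atTop, 5 * Real.log U * (U : ℝ) ^ τ' ≤ g * cV / 4 * U / Real.log U := by
    have h2 := (isLittleO_log_rpow_atTop (show 0 < (1 - τ') / 2 by linarith)).bound
      (show (0 : ℝ) < min 1 (g * cV / 20) by positivity)
    filter_upwards [tendsto_natCast_atTop_atTop.eventually h2, eventually_ge_atTop 3] with U hU hU3
    have hU3r : (3 : ℝ) ≤ U := by exact_mod_cast hU3
    have hl : 0 < Real.log U := Real.log_pos (by linarith)
    rw [Real.norm_of_nonneg hl.le, Real.norm_of_nonneg (by positivity)] at hU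
    rw [le_div_iff₀ hl]
    set X : ℝ := (U : ℝ) ^ ((1 - τ') / 2) with hX
    have hX0 : 0 < X := by positivity
    have e : (U : ℝ) = (U : ℝ) ^ τ' * (X * X) := by
      rw [hX, ← Real.rpow_add (by linarith), ← Real.rpow_add (by linarith)]
      have : τ' + ((1 - τ') / 2 + (1 - τ') / 2) = 1 := by ring
      rw [this, Real.rpow_one]
    have hA : Real.log U ≤ X := hU.trans (by
      have := min_le_left 1 (g * cV / 20)
      nlinarith)
    have hB : Real.log U ≤ g * cV / 20 * X := hU.trans (by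
      have := min_le_right 1 (g * cV / 20)
      exact mul_le_mul_of_nonneg_right this hX0.le)
    have hP : 0 < (U : ℝ) ^ τ' := by positivity
    calc 5 * Real.log U * (U : ℝ) ^ τ' * Real.log U
        = 5 * (U : ℝ) ^ τ' * (Real.log U * Real.log U) := by ring
      _ ≤ 5 * (U : ℝ) ^ τ' * (X * (g * cV / 20 * X)) := by gcongr
      _ = g * cV / 4 * ((U : ℝ) ^ τ' * (X * X)) := by ring
      _ = g * cV / 4 * U := by rw [← e]
  filter_upwards [ev1, eventually_ge_atTop Y0, eventually_ge_atTop N0, eventually_ge_atTop 3]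
    with U hU1 hU2 hU3 hU4 Z hZ b m
  have hU4r : (3 : ℝ) ≤ U := by exact_mod_cast hU4
  have hl : 0 < Real.log U := Real.log_pos (by linarith)
  obtain ⟨wU, wL, c1, c2, c3, c4⟩ := H U hU2
  have hPp : ∀ p ∈ PZ U ζ', p.Prime := by
    intro p hp
    unfold PZ at hp
    exact (mem_filter.1 hp).2.1
  have hMer : Mer (pr U ε₁ ζ') (tt U) (fun p => 1 / (p : ℝ)) ε₁ ζ' η := by
    intro a b' ha hab hb'
    have h2 := hmer U hU3 a b' ha hab (by linarith)
    have h3 : (pr U ε₁ ζ').filter (fun p => a ≤ tt U p ∧ tt U p < b') = pr U a b' := by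
      ext p
      rw [mem_filter, Pool.Agent.Y829.mem_pr, Pool.Agent.Y829.mem_pr]
      constructor
      · rintro ⟨⟨h4, h5, _, _⟩, h6, h7⟩
        exact ⟨h4, h5, h6, h7⟩
      · rintro ⟨h4, h5, h6, h7⟩
        exact ⟨⟨h4, h5, by linarith, by linarith⟩, h6, h7⟩
    rw [h3]
    exact h2
  obtain ⟨m1, -⟩ := c4 (fun p => 1 / (p : ℝ)) (fun p _ => by positivity) (fun p hp => by
      have : (1 : ℝ) ≤ p := by exact_mod_cast (hPp p hp).one_lt.le
      show 1 / (p : ℝ) ≤ 1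
      rw [div_le_one (by linarith)]; exact this) (fun p hp _ => by
      have : (2 : ℝ) ≤ p := by exact_mod_cast (hPp p hp).two_le
      show 1 / (p : ℝ) ≤ ((1 : ℕ) : ℝ) / ((p : ℝ) - 1)
      rw [Nat.cast_one]
      exact one_div_le_one_div_of_le (by linarith) (by linarith)) hMer
  obtain ⟨m', hm'⟩ := T1_crt b Z m
  rw [hm' U]
  have hsub : ∑ n ∈ Ioc m' (m' + U), (if ∀ p ∈ PZ U ζ', ¬ p ∣ n then (1 : ℝ) else 0) ≤
      T1 (fun _ => 0) Z m' U := by
    rw [← Nat.cast_one, ← Nat.cast_zero]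
    have : ∑ n ∈ Ioc m' (m' + U), (if ∀ p ∈ PZ U ζ', ¬ p ∣ n then ((1 : ℕ) : ℝ) else ((0 : ℕ) : ℝ)) =
        (((Ioc m' (m' + U)).filter (fun n => ∀ p ∈ PZ U ζ', ¬ p ∣ n)).card : ℝ) := by
      rw [card_filter]; push_cast; rfl
    rw [this]
    have h5 : ((Ioc m' (m' + U)).filter (fun n => ∀ p ∈ PZ U ζ', ¬ p ∣ n)).card ≤
        T1 (fun _ => 0) Z m' U := by
      unfold T1
      refine card_le_card fun n hn => ?_
      obtain ⟨n1, n2⟩ := mem_filter.1 hn
      refine mem_T1.2 ⟨mem_Ioc.1 n1, fun p hp h => ?_⟩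
      have hp1 := mem_primesLe.1 hp
      have hpr : (p : ℝ) < (U : ℝ) ^ ζ' := by
        have a1 : (p : ℝ) ≤ Z := by exact_mod_cast hp1.1
        have a2 : (U : ℝ) ^ ζ ≤ (U : ℝ) ^ ζ' :=
          Real.rpow_le_rpow_of_exponent_le (by linarith) hz3
        linarith
      have hpU : p ≤ U := by
        have a2 : (U : ℝ) ^ ζ' ≤ (U : ℝ) ^ (1 : ℝ) :=
          Real.rpow_le_rpow_of_exponent_le (by linarith) (by linarith)
        rw [Real.rpow_one] at a2
        exact_mod_cast (hpr.le.trans a2)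
      refine n2 p ?_ ?_
      · unfold PZ
        exact mem_filter.2 ⟨mem_Icc.2 ⟨hp1.2.one_lt.le, hpU⟩, hp1.2,
          (Pool.Agent.Y829.tt_lt (by omega) hp1.2.pos ζ').2 hpr⟩
      · rw [Nat.zero_mod] at h
        exact Nat.dvd_of_mod_eq_zero h
    exact_mod_cast h5
  have g3 := (sum_le_sum fun n (_ : n ∈ Ioc m' (m' + U)) => (c3 n).1).trans hsub
  rw [wsum0 (PZ U ζ') hPp wL m' U] at g3
  have g4 := err (PZ U ζ') hPp wL (5 * Real.log U) ((U : ℝ) ^ τ') (by positivity) (by positivity)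
    (fun T => (c1 T).2) (fun T hT h => c2 T hT (Or.inr h)) m' U
  have g5 := neg_le_of_abs_le g4
  have hprod : cV / Real.log U ≤ ∏ p ∈ PZ U ζ', (1 - 1 / (p : ℝ)) := by
    have h6 : V U ≤ ∏ p ∈ PZ U ζ', (1 - 1 / (p : ℝ)) := by
      unfold V
      refine Pool.Agent.Y829.V_mono (P := PZ U ζ') (Q := primesLe U) ?_
        (fun p hp => (mem_primesLe.1 hp).2)
      intro p hp
      unfold PZ at hp
      have := mem_filter.1 hp
      exact mem_primesLe.2 ⟨(mem_Icc.1 this.1).2, this.2.1⟩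
    have h7 := (hV U (by omega)).1
    rw [div_le_iff₀ hl]
    nlinarith
  have m1' : (g - g / 2) * ∏ p ∈ PZ U ζ', (1 - 1 / (p : ℝ)) ≤
      VV (PZ U ζ') wL (fun p => 1 / (p : ℝ)) := m1
  have g6 : g / 2 * (cV / Real.log U) ≤ VV (PZ U ζ') wL (fun p => 1 / (p : ℝ)) := by
    refine le_trans ?_ m1'
    have : g - g / 2 = g / 2 := by ring
    rw [this]
    exact mul_le_mul_of_nonneg_left hprod (by positivity)
  have g7 : (U : ℝ) * (g / 2 * (cV / Real.log U)) ≤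
      U * VV (PZ U ζ') wL (fun p => 1 / (p : ℝ)) :=
    mul_le_mul_of_nonneg_left g6 (by positivity)
  have g8 : g * cV / 4 * U / Real.log U = (U : ℝ) * (g / 2 * (cV / Real.log U)) -
      g * cV / 4 * U / Real.log U := by ring
  rw [g8]
  linarith

end Pool.Agent.H532.AN
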