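import Pool.Agent.H532.AN.Real2

/-!
The converse: prescribed classes for the primes up to `2 ^ (θ j)`, `θ > 1 / 2`.
-/

set_option autoImplicit false

namespace Pool.Agent.H532.AN

open Finset Filter
open scoped Topology
open Pool.Agent.H532.RM

lemma V_anti' {w Z : ℕ} (h : w ≤ Z) : V Z ≤ V w := by
  rw [V_split h]
  have h1 : ∏ p ∈ (primesLe Z).filter (fun p => w < p), (1 - 1 / (p : ℝ)) ≤ 1 := by
    refine prod_le_one (fun p hp => ?_) (fun p hp => ?_)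
    · have hp1 : (1 : ℝ) ≤ p := by
        exact_mod_cast (mem_primesLe.1 (mem_filter.1 hp).1).2.one_lt.le
      have : 1 / (p : ℝ) ≤ 1 := by rw [div_le_one (by linarith)]; exact hp1
      linarith
    · have : 0 ≤ 1 / (p : ℝ) := by positivity
      linarith
  have := V_pos w
  nlinarith

lemma exp_num : (0.513 : ℝ) < Real.exp (-Real.eulerMascheroniConstant) := by
  have h1 := Real.eulerMascheroniConstant_lt_two_thirds
  have h2 : Real.exp (-(2 / 3)) < Real.exp (-Real.eulerMascheroniConstant) :=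
    Real.exp_lt_exp.2 (by linarith)
  have h3 : (0.513 : ℝ) < Real.exp (-(2 / 3)) := by
    rw [Real.exp_neg, ← one_div, lt_div_iff₀ (Real.exp_pos _)]
    have h4 : Real.exp (2 / 3) < 1.948 := by
      refine lt_of_pow_lt_pow_left₀ 3 (by norm_num) ?_
      rw [← Real.exp_nat_mul]
      have h5 : ((3 : ℕ) : ℝ) * (2 / 3) = ((2 : ℕ) : ℝ) * 1 := by norm_num
      rw [h5, Real.exp_nat_mul]
      have h6 := Real.exp_one_lt_d9
      have h7 := Real.exp_pos 1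
      calc Real.exp 1 ^ 2 ≤ 2.7182818286 ^ 2 := by gcongr
        _ < 1.948 ^ 3 := by norm_num
    nlinarith
  linarith

lemma z_low (z : ℕ → ℕ) (hz : Tendsto (fun n : ℕ => V (z n) * Real.log n) atTop (𝓝 1)) :
    ∀ᶠ j : ℕ in atTop, (2 : ℝ) ^ (0.51 * (j : ℝ)) ≤ z (2 ^ j) := by
  have h1 := V_pow_two z hz
  have hlog2 : 0 < Real.log 2 := Real.log_pos (by norm_num)
  have e2 : Tendsto (fun j : ℕ => (2 : ℝ) ^ (0.51 * (j : ℝ))) atTop atTop :=
    (tendsto_rpow_atTop_of_base_gt_one 2 (by norm_num)).comp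
      (tendsto_natCast_atTop_atTop.const_mul_atTop (by norm_num))
  have e3 := V_log.comp (tendsto_nat_floor_atTop.comp e2)
  filter_upwards [h1.eventually (gt_mem_nhds (show (1 : ℝ) < 0.513 / 0.51 by norm_num)),
    e3.eventually (lt_mem_nhds exp_num), e2.eventually_ge_atTop 4, eventually_gt_atTop 0]
    with j a1 a2 a3 a4
  by_contra hcon
  push Not at hcon
  simp only [Function.comp] at a2
  set w := ⌊(2 : ℝ) ^ (0.51 * (j : ℝ))⌋₊ with hw
  have hzw : z (2 ^ j) ≤ w := Nat.le_floor hcon.le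
  have hV := V_anti' hzw
  have hjr : (0 : ℝ) < j := by exact_mod_cast a4
  have hw4 : 4 ≤ w := Nat.le_floor (by push_cast; exact a3)
  have hwr : (4 : ℝ) ≤ w := by exact_mod_cast hw4
  have hlw : Real.log w ≤ 0.51 * j * Real.log 2 := by
    have h3 : (w : ℝ) ≤ (2 : ℝ) ^ (0.51 * (j : ℝ)) := Nat.floor_le (by positivity)
    have h4 := Real.log_le_log (by linarith) h3
    rwa [Real.log_rpow (by norm_num)] at h4
  have hVw := V_pos w
  have h5 : V w * Real.log w ≤ V w * (0.51 * j * Real.log 2) :=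
    mul_le_mul_of_nonneg_left hlw hVw.le
  have h6 : V w * (j * Real.log 2) ≤ V (z (2 ^ j)) * (j * Real.log 2) :=
    mul_le_mul_of_nonneg_right hV (by positivity)
  have h7 : (0.513 : ℝ) / 0.51 * 0.51 = 0.513 := by norm_num
  nlinarith

/-- the sets with the class `2 ^ j` for the small primes of the block `j` -/
theorem neg (θ : ℝ) (hθ : 1 / 2 < θ) (y : ℕ → ℕ)
    (hy : ∀ᶠ j : ℕ in atTop, (2 : ℝ) ^ (θ * j) ≤ y j) (z : ℕ → ℕ) (hzm : Monotone z)
    (hz : Tendsto (fun n : ℕ => V (z n) * Real.log n) atTop (𝓝 1)) (a : ℕ → ℕ) (C : ℝ) :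
    ∀ᶠ j : ℕ in atTop, ∀ n ∈ RS z y (fun j _ => 2 ^ j) a,
      ¬ (√((2 : ℝ) ^ j + 1) < √(n : ℝ) ∧ √(n : ℝ) < √((2 : ℝ) ^ j + 1) + C) := by
  set θ' : ℝ := min θ 0.51 with hθ'
  have ht1 : 1 / 2 < θ' := lt_min hθ (by norm_num)
  have ht2 : θ' ≤ θ := min_le_left _ _
  have ht3 : θ' ≤ 0.51 := min_le_right _ _
  have e1 : ∀ᶠ j : ℕ in atTop, 2 * |C| * √((2 : ℝ) ^ j + 1) + C ^ 2 + 2 ≤ (2 : ℝ) ^ (θ' * (j : ℝ)) := by
    have h1 : Tendsto (fun j : ℕ => (2 : ℝ) ^ ((θ' - 1 / 2) * (j : ℝ))) atTop atTop :=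
      (tendsto_rpow_atTop_of_base_gt_one 2 (by norm_num)).comp
        (tendsto_natCast_atTop_atTop.const_mul_atTop (by linarith))
    filter_upwards [h1.eventually_ge_atTop (4 * |C| + C ^ 2 + 2)] with j hj
    have h2 : √((2 : ℝ) ^ j + 1) ≤ 2 * (2 : ℝ) ^ ((j : ℝ) / 2) := by
      rw [Real.sqrt_le_left (by positivity)]
      have h3 : (2 * (2 : ℝ) ^ ((j : ℝ) / 2)) ^ 2 = 4 * 2 ^ j := by
        rw [mul_pow, ← Real.rpow_natCast ((2 : ℝ) ^ ((j : ℝ) / 2)) 2,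
          ← Real.rpow_mul (by norm_num), ← Real.rpow_natCast 2 j]
        norm_num
      rw [h3]
      have : (1 : ℝ) ≤ 2 ^ j := one_le_pow₀ (by norm_num)
      linarith
    have h4 : (1 : ℝ) ≤ (2 : ℝ) ^ ((j : ℝ) / 2) :=
      Real.one_le_rpow (by norm_num) (by positivity)
    have h5 : (2 : ℝ) ^ (θ' * (j : ℝ)) = (2 : ℝ) ^ ((θ' - 1 / 2) * (j : ℝ)) * (2 : ℝ) ^ ((j : ℝ) / 2) := by
      rw [← Real.rpow_add (by norm_num)]; congr 1; ring
    rw [h5]
    have hC := abs_nonneg C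
    calc 2 * |C| * √((2 : ℝ) ^ j + 1) + C ^ 2 + 2
        ≤ 2 * |C| * (2 * (2 : ℝ) ^ ((j : ℝ) / 2)) + (C ^ 2 + 2) * (2 : ℝ) ^ ((j : ℝ) / 2) := by
          have : C ^ 2 + 2 ≤ (C ^ 2 + 2) * (2 : ℝ) ^ ((j : ℝ) / 2) := by
            nlinarith [sq_nonneg C]
          have h6 : 2 * |C| * √((2 : ℝ) ^ j + 1) ≤ 2 * |C| * (2 * (2 : ℝ) ^ ((j : ℝ) / 2)) := by
            gcongr
          linarith
      _ = (4 * |C| + C ^ 2 + 2) * (2 : ℝ) ^ ((j : ℝ) / 2) := by ring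
      _ ≤ _ := by gcongr
  filter_upwards [e1, hy, z_low z hz, eventually_ge_atTop 1] with j h1 h2 h3 h4 n hn hcon
  obtain ⟨c1, c2⟩ := hcon
  have hn1 : 2 ^ j + 2 ≤ n := by
    have h5 : (2 : ℝ) ^ j + 1 < n := by
      have := (Real.sqrt_lt_sqrt_iff (by positivity)).1 c1
      exact this
    have h6 : ((2 ^ j + 1 : ℕ) : ℝ) < n := by push_cast; exact h5
    have h7 : 2 ^ j + 1 < n := by exact_mod_cast h6
    omega
  have hC : 0 < √((2 : ℝ) ^ j + 1) + C := lt_of_le_of_lt (Real.sqrt_nonneg _) c2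
  have hn2 : (n : ℝ) < (2 : ℝ) ^ j + (2 : ℝ) ^ (θ' * (j : ℝ)) := by
    have h5 := (Real.sqrt_lt' hC).1 c2
    have h6 : √((2 : ℝ) ^ j + 1) ^ 2 = (2 : ℝ) ^ j + 1 := Real.sq_sqrt (by positivity)
    have h7 : C ≤ |C| := le_abs_self C
    have h8 := Real.sqrt_nonneg ((2 : ℝ) ^ j + 1)
    nlinarith
  -- the difference
  obtain ⟨i, rfl⟩ := Nat.exists_eq_add_of_le (show 2 ^ j ≤ n by omega)
  have hi2 : 2 ≤ i := by omega
  have hir : (i : ℝ) < (2 : ℝ) ^ (θ' * (j : ℝ)) := by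
    push_cast at hn2; linarith
  have hjlt : (2 : ℝ) ^ (θ' * (j : ℝ)) ≤ 2 ^ j := by
    rw [← Real.rpow_natCast 2 j]
    refine Real.rpow_le_rpow_of_exponent_le (by norm_num) ?_
    have : (0 : ℝ) ≤ j := by positivity
    nlinarith
  have hilt : i < 2 ^ j := by
    have : (i : ℝ) < ((2 ^ j : ℕ) : ℝ) := by push_cast; linarith
    exact_mod_cast this
  have hlog : Nat.log 2 (2 ^ j + i) = j := log2_of_mem (by omega) (by rw [pow_succ]; omega)
  have hiy : i ≤ y j := by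
    have h5 : (2 : ℝ) ^ (θ' * (j : ℝ)) ≤ (2 : ℝ) ^ (θ * (j : ℝ)) := by
      refine Real.rpow_le_rpow_of_exponent_le (by norm_num) ?_
      have : (0 : ℝ) ≤ j := by positivity
      nlinarith
    have : (i : ℝ) ≤ y j := by linarith
    exact_mod_cast this
  have hiz : i ≤ z (2 ^ j + i) := by
    have h5 : (2 : ℝ) ^ (θ' * (j : ℝ)) ≤ (2 : ℝ) ^ (0.51 * (j : ℝ)) := by
      refine Real.rpow_le_rpow_of_exponent_le (by norm_num) ?_
      have : (0 : ℝ) ≤ j := by positivity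
      nlinarith
    have h6 : (i : ℝ) ≤ z (2 ^ j) := by linarith
    have h7 : i ≤ z (2 ^ j) := by exact_mod_cast h6
    exact h7.trans (hzm (by omega))
  have hp := Nat.minFac_prime (show i ≠ 1 by omega)
  have hple : i.minFac ≤ i := Nat.minFac_le (by omega)
  have h8 := hn i.minFac hp (hple.trans hiz)
  apply h8
  rw [hlog]
  unfold mix
  rw [if_pos (hple.trans hiy)]
  show (2 ^ j + i) ≡ 2 ^ j [MOD i.minFac]
  have : i ≡ 0 [MOD i.minFac] := (Nat.modEq_zero_iff_dvd).2 (Nat.minFac_dvd i)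
  exact (Nat.ModEq.add_left (2 ^ j) this).trans (by rw [add_zero])

end Pool.Agent.H532.AN
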