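import Pool.Agent.H532.AN.LS
import Pool.Agent.H532.RM.ThmA2

/-!
Lower bounds for the numbers of survivors in all intervals of a dyadic block.
-/

set_option autoImplicit false

namespace Pool.Agent.H532.AN

open Finset Filter MeasureTheory ProbabilityTheory
open scoped Topology ENNReal
open Pool.Agent.H532.RM

lemma union_bound (j : ℕ) : (((2 : ℝ) ^ (j + 1) + 1) * (((2 : ℝ) ^ (j + 1) + 1) *
            (2 * Real.exp (-(4 * ((j : ℝ) + 2)))))) ≤ (1 / 2 : ℝ) ^ j := by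
  have h2 : (2 : ℝ) ^ (j + 1) + 1 ≤ 2 ^ (j + 2) := by
    have : (1 : ℝ) ≤ 2 ^ (j + 1) := one_le_pow₀ (by norm_num)
    have e : (2 : ℝ) ^ (j + 2) = 2 ^ (j + 1) + 2 ^ (j + 1) := by ring
    rw [e]; linarith
  have h3 : Real.exp (-(4 * ((j : ℝ) + 2))) ≤ (1 / 16 : ℝ) ^ (j + 2) := by
    have h4 : Real.exp (-4) ≤ 1 / 16 := by
      rw [Real.exp_neg, ← one_div]
      refine one_div_le_one_div_of_le (by norm_num) ?_
      have h5 := Real.exp_one_gt_d9
      have h6 : Real.exp 4 = Real.exp 1 ^ 4 := by rw [← Real.exp_nat_mul]; norm_num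
      rw [h6]
      have h7 : (2 : ℝ) ≤ Real.exp 1 := by linarith
      calc (16 : ℝ) = 2 ^ 4 := by norm_num
        _ ≤ Real.exp 1 ^ 4 := by gcongr
    calc Real.exp (-(4 * ((j : ℝ) + 2))) = Real.exp (-4) ^ (j + 2) := by
          rw [← Real.exp_nat_mul]; congr 1; push_cast; ring
      _ ≤ (1 / 16 : ℝ) ^ (j + 2) := by gcongr
  calc ((2 : ℝ) ^ (j + 1) + 1) * (((2 : ℝ) ^ (j + 1) + 1) *
      (2 * Real.exp (-(4 * ((j : ℝ) + 2)))))
      ≤ 2 ^ (j + 2) * (2 ^ (j + 2) * (2 * (1 / 16 : ℝ) ^ (j + 2))) := by gcongr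
    _ = 2 * (1 / 4) ^ (j + 2) := by
        have : (1 / 16 : ℝ) ^ (j + 2) = (1 / 2) ^ (j + 2) * ((1 / 2) ^ (j + 2) *
            (1 / 4) ^ (j + 2)) := by
          rw [← mul_pow, ← mul_pow]; norm_num
        rw [this]
        have h5 : (2 : ℝ) ^ (j + 2) * (1 / 2) ^ (j + 2) = 1 := by
          rw [← mul_pow]; norm_num
        calc (2 : ℝ) ^ (j + 2) * (2 ^ (j + 2) * (2 * ((1 / 2) ^ (j + 2) *
            ((1 / 2) ^ (j + 2) * (1 / 4) ^ (j + 2)))))
            = (2 ^ (j + 2) * (1 / 2) ^ (j + 2)) * (2 ^ (j + 2) * (1 / 2) ^ (j + 2)) *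
              (2 * (1 / 4) ^ (j + 2)) := by ring
          _ = 2 * (1 / 4) ^ (j + 2) := by rw [h5]; ring
    _ ≤ (1 / 2 : ℝ) ^ j := by
        have h6 : (1 / 4 : ℝ) ^ j ≤ (1 / 2) ^ j := by gcongr; norm_num
        have e : (1 / 4 : ℝ) ^ (j + 2) = (1 / 16) * (1 / 4) ^ j := by ring
        rw [e]
        have h7 : (0 : ℝ) ≤ (1 / 4 : ℝ) ^ j := by positivity
        linarith

lemma pow_le_exp2 (θ : ℝ) (hθ : 0 < θ) :
    ∀ᶠ j : ℕ in atTop, (j : ℝ) ^ 4 ≤ (2 : ℝ) ^ (θ * j) := by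
  have h1 : (1 : ℝ) < (2 : ℝ) ^ θ := Real.one_lt_rpow (by norm_num) hθ
  have h2 := tendsto_pow_const_div_const_pow_of_one_lt 4 h1
  filter_upwards [h2.eventually_le_const (show (0 : ℝ) < 1 by norm_num)] with j hj
  have h3 : (0 : ℝ) < ((2 : ℝ) ^ θ) ^ j := by positivity
  rw [div_le_one h3] at hj
  rwa [← Real.rpow_natCast ((2 : ℝ) ^ θ) j, ← Real.rpow_mul (by norm_num)] at hj

lemma rho_eq (Z w : ℕ) : rho 1 ((primesLe Z).filter (fun p => ¬ p ≤ w)) =
    if w ≤ Z then V Z / V w else 1 := by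
  split_ifs with h
  · rw [V_split h, mul_div_cancel_left₀ _ (V_pos w).ne']
    unfold rho
    refine prod_congr ?_ fun p _ => by simp
    ext p
    simp only [mem_filter, not_le]
  · have : (primesLe Z).filter (fun p => ¬ p ≤ w) = ∅ := by
      refine filter_eq_empty_iff.2 fun p hp hpw => hpw ?_
      have := (mem_primesLe.1 hp).1
      omega
    rw [this]; unfold rho; simp

/-- the density of the large primes -/
lemma rho_low (θ : ℝ) (hθ : 0 < θ) : ∃ c3 : ℝ, 0 < c3 ∧ c3 ≤ 1 ∧ ∀ Z : ℕ → ℕ,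
    Tendsto (fun j : ℕ => V (Z j) * (j * Real.log 2)) atTop (𝓝 1) →
    ∀ᶠ j : ℕ in atTop, c3 ≤ rho 1 ((primesLe (Z j)).filter
      (fun p => ¬ p ≤ ⌊(2 : ℝ) ^ (θ * j)⌋₊)) := by
  obtain ⟨cV, CV, hcV, hCV, hV⟩ := V_two_sided
  have hlog2 : 0 < Real.log 2 := Real.log_pos (by norm_num)
  refine ⟨min 1 (θ / (4 * CV)), lt_min one_pos (by positivity), min_le_left _ _, ?_⟩
  intro Z hZ
  have e1 : Tendsto (fun j : ℕ => θ * (j : ℝ)) atTop atTop :=
    tendsto_natCast_atTop_atTop.const_mul_atTop hθ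
  filter_upwards [hZ.eventually (lt_mem_nhds (by norm_num : (1 / 2 : ℝ) < 1)),
    e1.eventually_ge_atTop 4, eventually_gt_atTop 0] with j h1 h2 h3
  rw [rho_eq]
  split_ifs with h
  · refine (min_le_right _ _).trans ?_
    have hj : (0 : ℝ) < j := by exact_mod_cast h3
    set w := ⌊(2 : ℝ) ^ (θ * j)⌋₊ with hw
    have hX : (16 : ℝ) ≤ (2 : ℝ) ^ (θ * j) := by
      calc (16 : ℝ) = (2 : ℝ) ^ (4 : ℝ) := by norm_num
        _ ≤ _ := Real.rpow_le_rpow_of_exponent_le (by norm_num) h2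
    have hw1 : (2 : ℝ) ^ (θ * j / 2) ≤ w := by
      have a1 : (2 : ℝ) ^ (θ * j) < w + 1 := Nat.lt_floor_add_one _
      set Y : ℝ := (2 : ℝ) ^ (θ * j / 2) with hY
      have a2 : (2 : ℝ) ^ (θ * j) = Y * Y := by
        rw [hY, ← Real.rpow_add (by norm_num)]; congr 1; ring
      have a3 : 4 ≤ Y := by
        calc (4 : ℝ) = (2 : ℝ) ^ (2 : ℝ) := by norm_num
          _ ≤ _ := Real.rpow_le_rpow_of_exponent_le (by norm_num) (by linarith)
      rw [a2] at a1
      nlinarith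
    have hw4 : (4 : ℝ) ≤ w := by
      refine le_trans ?_ hw1
      calc (4 : ℝ) = (2 : ℝ) ^ (2 : ℝ) := by norm_num
          _ ≤ _ := Real.rpow_le_rpow_of_exponent_le (by norm_num) (by linarith)
    have hw2 : 2 ≤ w := by
      have : (2 : ℝ) ≤ w := by linarith
      exact_mod_cast this
    have hlw : θ * j / 2 * Real.log 2 ≤ Real.log w := by
      rw [← Real.log_rpow (by norm_num)]
      exact Real.log_le_log (by positivity) hw1
    have b1 := (hV w hw2).2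
    have hVw := V_pos w
    have hVZ := V_pos (Z j)
    have hlw0 : 0 < Real.log w := Real.log_pos (by linarith)
    rw [div_le_div_iff₀ (by positivity) hVw]
    have b2 : V w * (θ * j / 2 * Real.log 2) ≤ CV :=
      (mul_le_mul_of_nonneg_left hlw hVw.le).trans b1
    have b3 : 1 / 2 * CV ≤ V (Z j) * (j * Real.log 2) * CV :=
      mul_le_mul_of_nonneg_right h1.le hCV.le
    have hjl : 0 < (j : ℝ) * Real.log 2 := by positivity
    have b4 : θ * V w * (j * Real.log 2) ≤ V (Z j) * (4 * CV) * (j * Real.log 2) := by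
      nlinarith
    exact le_of_mul_le_mul_right b4 hjl
  · exact min_le_left _ _

theorem low_block (θ κ : ℝ) (hθ : 0 < θ) (hθκ : 2 * θ < κ) : ∃ c : ℝ, 0 < c ∧ ∀ {Ω : Type}
    [MeasurableSpace Ω] (μ : Measure Ω) [IsProbabilityMeasure μ] (A : ℕ → Ω → ℕ),
    RandomClasses μ A → ∀ z : ℕ → ℕ, Monotone z →
    Tendsto (fun n : ℕ => V (z n) * Real.log n) atTop (𝓝 1) →
    ∀ (y : ℕ → ℕ) (b : ℕ → ℕ → ℕ), (∀ᶠ j : ℕ in atTop, (y j : ℝ) ≤ (2 : ℝ) ^ (θ * j)) →
    ∀ᵐ ω ∂μ, ∀ᶠ j : ℕ in atTop, ∀ m U : ℕ,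
      2 ^ j ≤ m + 1 → m + U < 2 ^ (j + 1) → (2 : ℝ) ^ (κ * j) ≤ U →
      c * U / j ≤ cn (RS z y b (fun p => A p ω)) m U := by
  classical
  have hκ0 : 0 < κ := by linarith
  set ζ : ℝ := (θ / κ + 1 / 2) / 2 with hζ
  have hq : θ / κ < 1 / 2 := by rw [div_lt_iff₀ hκ0]; linarith
  have hq0 : 0 < θ / κ := by positivity
  have hζ0 : 0 < ζ := by positivity
  have hζ1 : ζ < 1 / 2 := by rw [hζ]; linarith
  have hζκ : θ < κ * ζ := by
    have : θ / κ < ζ := by rw [hζ]; linarith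
    rw [div_lt_iff₀ hκ0] at this; linarith
  obtain ⟨c1, hc1, hls⟩ := ls_low ζ hζ0 hζ1
  obtain ⟨U0, hU0⟩ := eventually_atTop.1 hls
  obtain ⟨c3, hc3, hc31, hρ⟩ := rho_low θ hθ
  have hlog2 : 0 < Real.log 2 := Real.log_pos (by norm_num)
  have hlog21 : Real.log 2 < 1 := by have := Real.log_two_lt_d9; linarith
  refine ⟨c3 * c1 / 4, by positivity, ?_⟩
  intro Ω _ μ _ A hA z hzm hz y b hy
  have hz2 := V_pow_two' z hz
  set Z : ℕ → ℕ := fun j => z (2 ^ (j + 1)) with hZ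
  set w : ℕ → ℕ := fun j => ⌊(2 : ℝ) ^ (θ * j)⌋₊ with hw
  set Q : ℕ → Finset ℕ := fun j => (primesLe (Z j)).filter (fun p => p ≤ w j) with hQ
  set P : ℕ → Finset ℕ := fun j => (primesLe (Z j)).filter (fun p => ¬ p ≤ w j) with hP
  have hQP : ∀ j, Q j ∪ P j = primesLe (Z j) := fun j => filter_union_filter_not_eq _ _
  have hdisj : ∀ j, Disjoint (Q j) (P j) := fun j => disjoint_filter_filter_not _ _ _
  have hcard : ({0} : Finset ℕ).card = 1 := card_singleton 0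
  set T : ℕ → ℕ → ℝ := fun j U => c3 * c1 / 4 * U / j with hT
  set E : ℕ → ℕ → ℕ → Set Ω := fun j m U =>
    {ω | T j U ≤ |((Sf {0} (y j) (b j) (Q j ∪ P j) m U (fun p => A p ω)).card : ℝ) -
      rho ({0} : Finset ℕ).card (P j) *
        (Sf {0} (y j) (b j) (Q j) m U (fun p => A p ω)).card|} with hE
  set F : ℕ → Finset ℕ := fun j => (range (2 ^ (j + 1) + 1)).filter
    (fun U => (2 : ℝ) ^ (κ * j) ≤ U) with hF
  have hev : ∀ᶠ j : ℕ in atTop, y j ≤ w j ∧ 2 ≤ j ∧ (U0 : ℝ) ≤ (2 : ℝ) ^ (κ * j) ∧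
      c1 ≤ j ∧ 4 ≤ w j ∧ 4 * ((j : ℝ) + 2) * (512 * (j : ℝ) ^ 2) ≤ c3 ^ 2 * c1 ^ 2 * w j ∧
      c3 ≤ rho 1 (P j) := by
    have e1 : Tendsto (fun j : ℕ => (2 : ℝ) ^ (κ * j)) atTop atTop :=
      (tendsto_rpow_atTop_of_base_gt_one 2 (by norm_num)).comp
        (tendsto_natCast_atTop_atTop.const_mul_atTop hκ0)
    have e2 : Tendsto (fun j : ℕ => (2 : ℝ) ^ (θ * j)) atTop atTop :=
      (tendsto_rpow_atTop_of_base_gt_one 2 (by norm_num)).comp
        (tendsto_natCast_atTop_atTop.const_mul_atTop hθ)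
    have e3 : ∀ᶠ j : ℕ in atTop, (j : ℝ) ^ 4 ≤ (2 : ℝ) ^ (θ * j) := pow_le_exp2 θ hθ
    filter_upwards [hy, eventually_ge_atTop 2, e1.eventually_ge_atTop (U0 : ℝ),
      tendsto_natCast_atTop_atTop.eventually_ge_atTop c1, e2.eventually_ge_atTop 5, e3,
      hρ Z hz2, tendsto_natCast_atTop_atTop.eventually_ge_atTop (8192 / (c3 ^ 2 * c1 ^ 2))]
      with j h1 h2 h3 h4 h5 h6 h7 h8
    refine ⟨Nat.le_floor h1, h2, h3, h4, ?_, ?_, h7⟩
    · exact Nat.le_floor (by push_cast; linarith)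
    · have hj : (2 : ℝ) ≤ j := by exact_mod_cast h2
      have a1 : (2 : ℝ) ^ (θ * j) < w j + 1 := Nat.lt_floor_add_one _
      have a2 : (j : ℝ) ^ 4 / 2 ≤ w j := by linarith
      rw [div_le_iff₀ (by positivity)] at h8
      calc 4 * ((j : ℝ) + 2) * (512 * (j : ℝ) ^ 2) ≤ 4 * (j + j) * (512 * (j : ℝ) ^ 2) := by
            gcongr
        _ = 8192 * (j : ℝ) ^ 3 / 2 := by ring
        _ ≤ (j * (c3 ^ 2 * c1 ^ 2)) * (j : ℝ) ^ 3 / 2 := by gcongr
        _ = c3 ^ 2 * c1 ^ 2 * ((j : ℝ) ^ 4 / 2) := by ring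
        _ ≤ _ := by gcongr
  have hmeas : ∀ᶠ j : ℕ in atTop,
      μ (⋃ m ∈ range (2 ^ (j + 1) + 1), ⋃ U ∈ F j, E j m U) ≤
        ENNReal.ofReal ((1 / 2 : ℝ) ^ j) := by
    filter_upwards [hev] with j hj
    obtain ⟨hj1, hj2, hj3, hj4, hj5, hj6, hj7⟩ := hj
    have hjr : (2 : ℝ) ≤ j := by exact_mod_cast hj2
    have h1 : ∀ m ∈ range (2 ^ (j + 1) + 1), ∀ U ∈ F j, μ (E j m U) ≤
        ENNReal.ofReal (2 * Real.exp (-(4 * ((j : ℝ) + 2)))) := by
      intro m _ U hU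
      have hU' := (mem_filter.1 hU).2
      have hwUr : (w j : ℝ) ≤ U := by
        refine (Nat.floor_le (by positivity)).trans (le_trans ?_ hU')
        refine Real.rpow_le_rpow_of_exponent_le (by norm_num) ?_
        nlinarith
      have hwU1 : w j ≤ U := by exact_mod_cast hwUr
      have hwr : (4 : ℝ) ≤ w j := by exact_mod_cast hj5
      have hTle : T j U ≤ U := by
        rw [hT]; simp only
        rw [div_le_iff₀ (by linarith)]
        have hUn : (0 : ℝ) ≤ U := by positivity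
        have : c3 * c1 / 4 ≤ j := by nlinarith
        nlinarith
      have htail := block_tail hA {0} (singleton_nonempty 0) (y j) (b j) (Q j) (P j)
        (fun p hp => (mem_primesLe.1 (mem_filter.1 hp).1).2) (hdisj j) (w j) (by omega)
        (fun p hp => ⟨(mem_primesLe.1 (mem_filter.1 hp).1).2, not_le.1 (mem_filter.1 hp).2⟩)
        hj1 (fun d hd => by rw [mem_singleton] at hd; omega)
        (by rw [hcard]; omega) m U (by omega) (T j U)
        (by rw [hT]; simp only; positivity) hTle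
      refine htail.trans (ENNReal.ofReal_le_ofReal ?_)
      have hUr : (4 : ℝ) ≤ U := by linarith
      have hU1 : (U : ℝ) / w j + 1 ≤ 2 * U / w j := by
        rw [div_add_one (by linarith), div_le_div_iff_of_pos_right (by linarith)]
        linarith
      have hexp : 4 * ((j : ℝ) + 2) ≤
          T j U ^ 2 / (16 * (({0} : Finset ℕ).card * ((U : ℝ) / w j + 1)) * U) := by
        rw [hcard]
        calc 4 * ((j : ℝ) + 2) ≤ c3 ^ 2 * c1 ^ 2 * w j / (512 * (j : ℝ) ^ 2) := by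
              rw [le_div_iff₀ (by positivity)]; exact hj6
          _ = T j U ^ 2 / (16 * (((1 : ℕ) : ℝ) * (2 * U / w j)) * U) := by
              rw [hT]; simp only
              have : (j : ℝ) ≠ 0 := by linarith
              have : (U : ℝ) ≠ 0 := by linarith
              have : (w j : ℝ) ≠ 0 := by linarith
              field_simp
              ring
          _ ≤ T j U ^ 2 / (16 * (((1 : ℕ) : ℝ) * ((U : ℝ) / w j + 1)) * U) := by
              gcongr
      gcongr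
    calc μ (⋃ m ∈ range (2 ^ (j + 1) + 1), ⋃ U ∈ F j, E j m U)
        ≤ ∑ m ∈ range (2 ^ (j + 1) + 1), μ (⋃ U ∈ F j, E j m U) :=
          measure_biUnion_finset_le _ _
      _ ≤ ∑ m ∈ range (2 ^ (j + 1) + 1), ∑ U ∈ F j, μ (E j m U) := by
          gcongr with m hm
          exact measure_biUnion_finset_le _ _
      _ ≤ ∑ m ∈ range (2 ^ (j + 1) + 1), ∑ U ∈ F j,
            ENNReal.ofReal (2 * Real.exp (-(4 * ((j : ℝ) + 2)))) := by
          gcongr with m hm U hU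
          exact h1 m hm U hU
      _ ≤ ∑ m ∈ range (2 ^ (j + 1) + 1), ∑ U ∈ range (2 ^ (j + 1) + 1),
            ENNReal.ofReal (2 * Real.exp (-(4 * ((j : ℝ) + 2)))) := by
          gcongr
          exact filter_subset _ _
      _ = ENNReal.ofReal (((2 : ℝ) ^ (j + 1) + 1) * (((2 : ℝ) ^ (j + 1) + 1) *
            (2 * Real.exp (-(4 * ((j : ℝ) + 2)))))) := by
          rw [sum_const, sum_const, card_range, nsmul_eq_mul, nsmul_eq_mul]
          have hp0 : (0 : ℝ) ≤ (2 : ℝ) ^ (j + 1) + 1 := by positivity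
          have : ENNReal.ofReal ((2 : ℝ) ^ (j + 1) + 1) = ((2 ^ (j + 1) + 1 : ℕ) : ℝ≥0∞) := by
            rw [← ENNReal.ofReal_natCast]; push_cast; rfl
          rw [ENNReal.ofReal_mul hp0, ENNReal.ofReal_mul hp0, this]
      _ ≤ ENNReal.ofReal ((1 / 2 : ℝ) ^ j) := ENNReal.ofReal_le_ofReal (union_bound j)
  have hbc := borel_cantelli_nat μ _ hmeas
  filter_upwards [hbc] with ω hω
  filter_upwards [hω, hev] with j hj hjc m U hm hmU hU
  obtain ⟨hj1, hj2, hj3, hj4, hj5, hj6, hj7⟩ := hjc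
  have hjr : (2 : ℝ) ≤ j := by exact_mod_cast hj2
  have hUF : U ∈ F j := mem_filter.2 ⟨mem_range.2 (by omega), hU⟩
  have hnot : ω ∉ E j m U := by
    intro h
    refine hj ?_
    refine Set.mem_biUnion (x := m) (mem_coe.2 (mem_range.2 (by omega))) ?_
    exact Set.mem_biUnion (x := U) (mem_coe.2 hUF) h
  have hlt : |((Sf {0} (y j) (b j) (Q j ∪ P j) m U (fun p => A p ω)).card : ℝ) -
      rho ({0} : Finset ℕ).card (P j) *
        (Sf {0} (y j) (b j) (Q j) m U (fun p => A p ω)).card| < T j U :=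
    not_le.1 hnot
  have hSf : ∀ Q' : Finset ℕ, Sf {0} (y j) (b j) Q' m U (fun p => A p ω) =
      TT {0} (mix (y j) (b j) (fun p => A p ω)) Q' m U := fun _ => rfl
  rw [hSf, hSf, hQP j, hcard] at hlt
  refine le_trans ?_ (TT_le_cn z y hzm b (fun p => A p ω) j m U hm hmU)
  have hU0U : U0 ≤ U := by
    have : (U0 : ℝ) ≤ U := hj3.trans hU
    exact_mod_cast this
  have hwζ : (w j : ℝ) < (U : ℝ) ^ ζ := by
    have a1 : (w j : ℝ) ≤ (2 : ℝ) ^ (θ * j) := Nat.floor_le (by positivity)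
    have a2 : (2 : ℝ) ^ (θ * j) < (2 : ℝ) ^ (κ * j * ζ) := by
      refine Real.rpow_lt_rpow_of_exponent_lt (by norm_num) ?_
      nlinarith
    have a3 : (2 : ℝ) ^ (κ * j * ζ) ≤ (U : ℝ) ^ ζ := by
      rw [Real.rpow_mul (by norm_num)]
      exact Real.rpow_le_rpow (by positivity) hU hζ0.le
    linarith
  have hT1 := hU0 U hU0U (w j) hwζ (mix (y j) (b j) (fun p => A p ω)) m
  have hT2 : T1 (mix (y j) (b j) (fun p => A p ω)) (w j) m U ≤
      (TT {0} (mix (y j) (b j) (fun p => A p ω)) (Q j) m U).card := by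
    unfold T1
    refine card_le_card fun n hn => ?_
    have := mem_T1.1 hn
    refine mem_T1.2 ⟨this.1, fun p hp => this.2 p ?_⟩
    have h5 := mem_filter.1 hp
    exact mem_primesLe.2 ⟨h5.2, (mem_primesLe.1 h5.1).2⟩
  have hT2' : (T1 (mix (y j) (b j) (fun p => A p ω)) (w j) m U : ℝ) ≤
      ((TT {0} (mix (y j) (b j) (fun p => A p ω)) (Q j) m U).card : ℝ) := by exact_mod_cast hT2
  set X1 := ((TT {0} (mix (y j) (b j) (fun p => A p ω)) (primesLe (Z j)) m U).card : ℝ) with hX1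
  set X2 := ((TT {0} (mix (y j) (b j) (fun p => A p ω)) (Q j) m U).card : ℝ) with hX2
  have hwr : (4 : ℝ) ≤ w j := by exact_mod_cast hj5
  have hUw : (w j : ℝ) ≤ U := by
    refine (Nat.floor_le (by positivity)).trans (le_trans ?_ hU)
    refine Real.rpow_le_rpow_of_exponent_le (by norm_num) ?_
    nlinarith
  have hUr : (4 : ℝ) ≤ U := by linarith
  have hlogU : Real.log U ≤ 2 * j := by
    have a1 : (U : ℝ) ≤ 2 ^ (j + 1) := by
      have : U ≤ 2 ^ (j + 1) := by omega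
      exact_mod_cast this
    have a2 := Real.log_le_log (by linarith) a1
    rw [Real.log_pow] at a2
    push_cast at a2
    nlinarith
  have hlogU0 : 0 < Real.log U := Real.log_pos (by linarith)
  have hlow : c1 * U / (2 * j) ≤ X2 := by
    refine le_trans ?_ (hT1.trans hT2')
    gcongr
  have hX2n : 0 ≤ X2 := by rw [hX2]; positivity
  have b1 : c3 * (c1 * U / (2 * j)) ≤ rho 1 (P j) * X2 := by
    refine (mul_le_mul_of_nonneg_left hlow hc3.le).trans ?_
    exact mul_le_mul_of_nonneg_right hj7 hX2n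
  have b2 := (abs_lt.1 hlt).1
  have b3 : T j U = c3 * c1 / 4 * U / j := rfl
  have b4 : c3 * (c1 * U / (2 * j)) = c3 * c1 / 4 * U / j + c3 * c1 / 4 * U / j := by
    ring
  rw [b3] at b2
  show c3 * c1 / 4 * U / j ≤ X1
  linarith

end Pool.Agent.H532.AN
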