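import Pool.Agent.H532.AN.Prob

/-!
From the dyadic blocks to real intervals.
-/

set_option autoImplicit false

namespace Pool.Agent.H532.AN

open Finset Filter
open scoped Topology
open Pool.Agent.H532.RM

theorem real_low (R : Set ℕ) (c0 κ κ' : ℝ) (hc0 : 0 < c0) (hκ0 : 0 < κ) (hκ : κ < κ')
    (h : ∀ᶠ j : ℕ in atTop, ∀ m U : ℕ,
      2 ^ j ≤ m + 1 → m + U < 2 ^ (j + 1) → (2 : ℝ) ^ (κ * j) ≤ U → c0 * U / j ≤ cn R m U) :
    ∀ᶠ x : ℝ in atTop, ∀ H : ℝ, x ^ κ' ≤ H → H ≤ x → c0 / 8 * H / Real.log x ≤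
      ({n : ℕ | n ∈ R ∧ x < (n : ℝ) ∧ (n : ℝ) ≤ x + H}.ncard : ℝ) := by
  classical
  obtain ⟨J, hJ⟩ := eventually_atTop.1 h
  have hlog2 : 0 < Real.log 2 := Real.log_pos (by norm_num)
  have hlog2' : (1 / 2 : ℝ) < Real.log 2 := by have := Real.log_two_gt_d9; linarith
  have e1 : ∀ᶠ x : ℝ in atTop, (2 * x) ^ κ ≤ x ^ κ' / 4 := by
    have h1 : Tendsto (fun x : ℝ => x ^ (κ' - κ)) atTop atTop :=
      tendsto_rpow_atTop (by linarith)
    filter_upwards [h1.eventually_ge_atTop ((2 : ℝ) ^ κ * 4), eventually_gt_atTop 0]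
      with x h2 h3
    rw [Real.mul_rpow (by norm_num) h3.le]
    have h4 : x ^ κ' = x ^ (κ' - κ) * x ^ κ := by
      rw [← Real.rpow_add h3]; congr 1; ring
    have h5 : 0 < x ^ κ := by positivity
    rw [h4]
    nlinarith
  have e4 : ∀ᶠ x : ℝ in atTop, 4 ≤ x ^ κ' :=
    (tendsto_rpow_atTop (by linarith)).eventually_ge_atTop 4
  filter_upwards [e1, eventually_ge_atTop ((2 : ℝ) ^ (J + 2)), e4, eventually_ge_atTop 64]
    with x h1 h2 h4 h5 H hH1 hH2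
  have hx0 : (0 : ℝ) < x := by linarith
  set a := ⌊x⌋₊ with ha
  set j := Nat.log 2 a with hj
  set L := ⌊H / 2⌋₊ with hL
  have ha1 : 2 ^ (J + 2) ≤ a := Nat.le_floor (by push_cast; exact h2)
  have ha0 : a ≠ 0 := by
    have : 0 < 2 ^ (J + 2) := by positivity
    omega
  have hja : 2 ^ j ≤ a := Nat.pow_log_le_self 2 ha0
  have haj : a < 2 ^ (j + 1) := Nat.lt_pow_succ_log_self (by norm_num) a
  have hJj : J ≤ j := by
    have : 2 ^ (J + 2) < 2 ^ (j + 1) := ha1.trans_lt haj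
    have := (Nat.pow_lt_pow_iff_right (by norm_num : 1 < 2)).1 this
    omega
  have hax : (a : ℝ) ≤ x := Nat.floor_le hx0.le
  have hxa : x < a + 1 := Nat.lt_floor_add_one x
  have hH0 : 0 ≤ H := by linarith
  have hLle : (L : ℝ) ≤ H / 2 := Nat.floor_le (by linarith)
  have hLge : H / 4 ≤ L := by
    have h6 : H / 2 < L + 1 := Nat.lt_floor_add_one _
    linarith
  have h2jx : (2 : ℝ) ^ j ≤ x := by
    have : ((2 ^ j : ℕ) : ℝ) ≤ a := by exact_mod_cast hja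
    push_cast at this; linarith
  have hx2j : x ≤ (2 : ℝ) ^ (j + 1) := by
    have h6 : a + 1 ≤ 2 ^ (j + 1) := haj
    have : ((a + 1 : ℕ) : ℝ) ≤ ((2 ^ (j + 1) : ℕ) : ℝ) := by exact_mod_cast h6
    push_cast at this; linarith
  have h2L : 2 * L ≤ 2 ^ (j + 1) := by
    have : (2 : ℝ) * L ≤ (2 : ℝ) ^ (j + 1) := by
      linarith
    exact_mod_cast this
  have hκj : (2 : ℝ) ^ (κ * ((j + 1 : ℕ) : ℝ)) ≤ L := by
    refine le_trans ?_ hLge
    refine le_trans ?_ (show x ^ κ' / 4 ≤ H / 4 by linarith)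
    refine le_trans ?_ h1
    have h6 : (2 : ℝ) ^ (κ * ((j + 1 : ℕ) : ℝ)) = ((2 : ℝ) ^ (j + 1)) ^ κ := by
      rw [← Real.rpow_natCast, ← Real.rpow_mul (by norm_num), mul_comm]
    rw [h6]
    refine Real.rpow_le_rpow (by positivity) ?_ hκ0.le
    rw [pow_succ]; linarith
  have hκj' : (2 : ℝ) ^ (κ * (j : ℝ)) ≤ L := by
    refine le_trans ?_ hκj
    refine Real.rpow_le_rpow_of_exponent_le (by norm_num) ?_
    push_cast
    nlinarith
  have hj4 : 4 ≤ j := by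
    have h6 : (2 : ℝ) ^ 6 ≤ 2 ^ (j + 1) := by norm_num at h5 ⊢; linarith
    have h7 := (pow_le_pow_iff_right₀ (by norm_num : (1 : ℝ) < 2)).1 h6
    omega
  have hjr : (4 : ℝ) ≤ j := by exact_mod_cast hj4
  have hL0 : (0 : ℝ) ≤ L := by positivity
  have hlogx : (j : ℝ) * Real.log 2 ≤ Real.log x := by
    rw [← Real.log_pow]
    exact Real.log_le_log (by positivity) h2jx
  have hlog69 : (0.69 : ℝ) < Real.log 2 := by have := Real.log_two_gt_d9; linarith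
  have hlx : ((j : ℝ) + 1) ≤ 2 * Real.log x := by nlinarith
  have hlx0 : 0 < Real.log x := by nlinarith
  -- the number in one of two halves
  have key : ∃ m, a ≤ m ∧ m + L ≤ a + 2 * L ∧ c0 * L / (j + 1) ≤ cn R m L := by
    by_cases hc' : a + L < 2 ^ (j + 1)
    · refine ⟨a, le_rfl, by omega, ?_⟩
      refine le_trans ?_ (hJ j hJj a L (by omega) hc' hκj')
      apply div_le_div_of_nonneg_left (by positivity) (by linarith) (by linarith)
    · refine ⟨a + L, by omega, by omega, ?_⟩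
      have h6 : 2 ^ (j + 1 + 1) = 2 * 2 ^ (j + 1) := by ring
      have := hJ (j + 1) (by omega) (a + L) L (by omega) (by omega) hκj
      push_cast at this
      exact this
  obtain ⟨m, hm1, hm2, hm3⟩ := key
  have hfin : {n : ℕ | n ∈ R ∧ x < (n : ℝ) ∧ (n : ℝ) ≤ x + H}.Finite :=
    (Set.finite_Iic ⌊x + H⌋₊).subset fun n hn => Nat.le_floor hn.2.2
  have hcn : cn R m L ≤ ({n : ℕ | n ∈ R ∧ x < (n : ℝ) ∧ (n : ℝ) ≤ x + H}.ncard : ℝ) := by
    unfold cn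
    have h6 : (((Ioc m (m + L)).filter (· ∈ R) : Finset ℕ) : Set ℕ) ⊆
        {n : ℕ | n ∈ R ∧ x < (n : ℝ) ∧ (n : ℝ) ≤ x + H} := by
      intro n hn
      obtain ⟨n1, n2⟩ := mem_filter.1 (Finset.mem_coe.1 hn)
      have n3 := mem_Ioc.1 n1
      refine ⟨n2, ?_, ?_⟩
      · have : a + 1 ≤ n := by omega
        have : ((a + 1 : ℕ) : ℝ) ≤ n := by exact_mod_cast this
        push_cast at this; linarith
      · have : n ≤ a + 2 * L := by omega
        have : (n : ℝ) ≤ ((a + 2 * L : ℕ) : ℝ) := by exact_mod_cast this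
        push_cast at this
        linarith
    have h7 := Set.ncard_le_ncard h6 hfin
    rw [Set.ncard_coe_finset] at h7
    convert (Nat.cast_le (α := ℝ)).2 h7 using 3
  refine le_trans ?_ (hm3.trans hcn)
  rw [div_le_div_iff₀ hlx0 (by positivity)]
  calc c0 / 8 * H * (j + 1) ≤ c0 / 8 * H * (2 * Real.log x) := by gcongr
    _ = c0 * (H / 4) * Real.log x := by ring
    _ ≤ c0 * L * Real.log x := by gcongr

/-- the inequalities for the square roots -/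
theorem sqrt_low (R : Set ℕ) (κ' : ℝ) (k : ℝ) (hk : 0 < k) (hκ1 : κ' ≤ 1)
    (h : ∀ᶠ x : ℝ in atTop, ∀ H : ℝ, x ^ κ' ≤ H → H ≤ x → k * H / Real.log x ≤
      ({n : ℕ | n ∈ R ∧ x < (n : ℝ) ∧ (n : ℝ) ≤ x + H}.ncard : ℝ)) :
    ∀ᶠ r : ℕ in atTop, ∃ r' ∈ R, r < r' ∧ √(r' : ℝ) - √(r : ℝ) < (r : ℝ) ^ (κ' - 1 / 2) := by
  filter_upwards [tendsto_natCast_atTop_atTop.eventually h, eventually_ge_atTop 3] with r hr h3
  have hr3 : (3 : ℝ) ≤ r := by exact_mod_cast h3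
  have hr0 : (0 : ℝ) < r := by linarith
  have h1 := hr ((r : ℝ) ^ κ') le_rfl (by
    calc (r : ℝ) ^ κ' ≤ (r : ℝ) ^ (1 : ℝ) :=
          Real.rpow_le_rpow_of_exponent_le (by linarith) hκ1
      _ = r := Real.rpow_one _)
  have hlog : 0 < Real.log r := Real.log_pos (by linarith)
  have h2 : 0 < ({n : ℕ | n ∈ R ∧ (r : ℝ) < (n : ℝ) ∧ (n : ℝ) ≤ r + (r : ℝ) ^ κ'}.ncard : ℝ) := by
    refine lt_of_lt_of_le ?_ h1
    positivity
  have h4 : {n : ℕ | n ∈ R ∧ (r : ℝ) < (n : ℝ) ∧ (n : ℝ) ≤ r + (r : ℝ) ^ κ'}.Nonempty := by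
    refine Set.nonempty_of_ncard_ne_zero ?_
    intro h5
    rw [h5] at h2
    simp at h2
  obtain ⟨r', hR, h5, h6⟩ := h4
  refine ⟨r', hR, by exact_mod_cast h5, ?_⟩
  have hs0 : 0 < √(r : ℝ) := Real.sqrt_pos.2 hr0
  have hss : √(r : ℝ) * √(r : ℝ) = r := Real.mul_self_sqrt hr0.le
  have hs1 : √(r : ℝ) < √(r' : ℝ) := Real.sqrt_lt_sqrt hr0.le h5
  have hss' : √(r' : ℝ) * √(r' : ℝ) = r' := Real.mul_self_sqrt (by positivity)
  have h7 : (r : ℝ) ^ (κ' - 1 / 2) * √(r : ℝ) = (r : ℝ) ^ κ' := by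
    rw [Real.sqrt_eq_rpow, ← Real.rpow_add hr0]; congr 1; ring
  have h8 : (√(r' : ℝ) - √(r : ℝ)) * (√(r' : ℝ) + √(r : ℝ)) ≤ (r : ℝ) ^ κ' := by nlinarith
  have h9 : (√(r' : ℝ) - √(r : ℝ)) * √(r : ℝ) < (r : ℝ) ^ (κ' - 1 / 2) * √(r : ℝ) := by
    rw [h7]
    have : 0 < √(r' : ℝ) - √(r : ℝ) := by linarith
    nlinarith
  exact lt_of_mul_lt_mul_right h9 hs0.le

end Pool.Agent.H532.AN
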